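import Pool.Agent.Results.MP_123300_co.Main

/-!
# NeST graphs can need arbitrarily many unbounded tolerances

A strong form of the starting result `Main` (not every NeST graph is a bounded NeST graph). The
definitions `IsEmbeddedTree`, `IsNeSTRep`, `IsNeST`, `IsBoundedNeST` and the grid graph
`gridGraph p q` are in `Pool.Agent.Helper997.NeST`.
-/

set_option autoImplicit false

namespace Pool.Agent.Results.MP_123300_co.ManyUnbounded

open Metric Set Pool.Agent.Helper997.NeST Pool.Agent.Results.MP_123300_co.Main

/-- A representation restricts to induced subgraphs. -/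
lemma rep_restrict {V W T : Type} [MetricSpace T] {G : SimpleGraph V} {H : SimpleGraph W}
    {c : V → T} {r t : V → ℝ} (h : IsNeSTRep G c r t) (f : W → V) (hf : Function.Injective f)
    (hadj : ∀ x y, H.Adj x y ↔ G.Adj (f x) (f y)) :
    IsNeSTRep H (c ∘ f) (r ∘ f) (t ∘ f) where
  radius_pos v := h.radius_pos (f v)
  tolerance_pos v := h.tolerance_pos (f v)
  size v := h.size (f v)
  adj_iff x y hxy := (hadj x y).trans (h.adj_iff (f x) (f y) (fun e => hxy (hf e)))

lemma bounded_restrict {V W : Type} {G : SimpleGraph V} {H : SimpleGraph W}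
    (f : W → V) (hf : Function.Injective f)
    (hadj : ∀ x y, H.Adj x y ↔ G.Adj (f x) (f y)) (h : IsBoundedNeST G) : IsBoundedNeST H := by
  obtain ⟨T, i, hT, c, r, t, hrep, hb⟩ := h
  exact ⟨T, i, hT, c ∘ f, r ∘ f, t ∘ f, rep_restrict hrep f hf hadj, fun v => hb (f v)⟩

/-- Choosing rows and columns gives an induced subgraph. -/
def sub {p q p' q' : ℕ} (R : Fin p' → Fin p) (C : Fin q' → Fin q) : Vtx p' q' → Vtx p q
  | .a i j => .a (R i) (C j)
  | .b i j => .b (R i) (C j)
  | .α j => .α (C j)
  | .β i => .β (R i)

lemma sub_inj {p q p' q' : ℕ} {R : Fin p' → Fin p} {C : Fin q' → Fin q}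
    (hR : Function.Injective R) (hC : Function.Injective C) : Function.Injective (sub R C) := by
  intro x y h
  cases x <;> cases y <;> simp only [sub, Vtx.a.injEq, Vtx.b.injEq, Vtx.α.injEq, Vtx.β.injEq,
    reduceCtorEq] at h ⊢
  · exact ⟨hR h.1, hC h.2⟩
  · exact ⟨hR h.1, hC h.2⟩
  · exact hC h
  · exact hR h

lemma sub_adj {p q p' q' : ℕ} {R : Fin p' → Fin p} {C : Fin q' → Fin q}
    (hR : Function.Injective R) (hC : Function.Injective C) (x y : Vtx p' q') :
    (gridGraph p' q').Adj x y ↔ (gridGraph p q).Adj (sub R C x) (sub R C y) := by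
  have hl : ∀ x y : Vtx p' q', link x y ↔ link (sub R C x) (sub R C y) := by
    intro x y
    cases x <;> cases y <;> simp [sub, link, hR.eq_iff, hC.eq_iff]
  unfold gridGraph
  rw [SimpleGraph.fromRel_adj, SimpleGraph.fromRel_adj, (sub_inj hR hC).ne_iff, hl x y, hl y x]

/-- Deleting at most `p - 9` vertices of the grid graph does not make it bounded. -/
theorem far {p q : ℕ} (hq : p + 1288 ≤ q) (U : Finset (Vtx p q)) (hU : U.card + 9 ≤ p) :
    ¬ IsBoundedNeST ((gridGraph p q).induce {v | v ∉ U}) := by
  classical
  intro hbd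
  -- rows and columns that avoid `U`
  set Rs : Finset (Fin p) := Finset.univ.filter (fun i => (.β i : Vtx p q) ∉ U) with hRs
  set Cs : Finset (Fin q) := Finset.univ.filter
    (fun j => (.α j : Vtx p q) ∉ U ∧ ∀ i, (.a i j : Vtx p q) ∉ U ∧ (.b i j : Vtx p q) ∉ U) with hCs
  let colOf : Vtx p q → Option (Fin q) := fun v => match v with
    | .a _ j => some j
    | .b _ j => some j
    | .α j => some j
    | .β _ => none
  have hRc : 9 ≤ Rs.card := by
    have h1 : (Finset.univ.filter (fun i => ¬ (.β i : Vtx p q) ∉ U)).card ≤ U.card := by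
      apply Finset.card_le_card_of_injOn (fun i => (.β i : Vtx p q))
      · intro i hi
        simpa using hi
      · intro i _ j _ h
        simpa using h
    have h2 := Finset.card_filter_add_card_filter_not (s := (Finset.univ : Finset (Fin p)))
      (fun i => (.β i : Vtx p q) ∉ U)
    rw [Finset.card_univ, Fintype.card_fin] at h2
    have h6 : Rs.card = (Finset.univ.filter (fun i => (.β i : Vtx p q) ∉ U)).card := by
      rw [hRs]
    omega
  have hCc : 1297 ≤ Cs.card := by
    have h1 : (Finset.univ.filter (fun j => ¬ ((.α j : Vtx p q) ∉ U ∧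
        ∀ i, (.a i j : Vtx p q) ∉ U ∧ (.b i j : Vtx p q) ∉ U))).card ≤ U.card := by
      have h3 : (Finset.univ.filter (fun j => ¬ ((.α j : Vtx p q) ∉ U ∧
          ∀ i, (.a i j : Vtx p q) ∉ U ∧ (.b i j : Vtx p q) ∉ U))).image some ⊆
          U.image colOf := by
        intro o ho
        rw [Finset.mem_image] at ho
        obtain ⟨j, hj, rfl⟩ := ho
        rw [Finset.mem_filter] at hj
        have hj2 := hj.2
        rw [Finset.mem_image]
        by_cases hα : (.α j : Vtx p q) ∈ U
        · exact ⟨_, hα, rfl⟩
        · rw [not_and] at hj2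
          have := hj2 hα
          push Not at this
          obtain ⟨i, hi⟩ := this
          by_cases ha : (.a i j : Vtx p q) ∈ U
          · exact ⟨_, ha, rfl⟩
          · exact ⟨_, hi ha, rfl⟩
      have h4 := Finset.card_le_card h3
      rw [Finset.card_image_of_injective _ (Option.some_injective _)] at h4
      exact h4.trans Finset.card_image_le
    have h2 := Finset.card_filter_add_card_filter_not (s := (Finset.univ : Finset (Fin q)))
      (fun j => (.α j : Vtx p q) ∉ U ∧ ∀ i, (.a i j : Vtx p q) ∉ U ∧ (.b i j : Vtx p q) ∉ U)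
    rw [Finset.card_univ, Fintype.card_fin] at h2
    have h6 : Cs.card = (Finset.univ.filter (fun j => (.α j : Vtx p q) ∉ U ∧
        ∀ i, (.a i j : Vtx p q) ∉ U ∧ (.b i j : Vtx p q) ∉ U)).card := by
      rw [hCs]
    omega
  obtain ⟨R', hR'⟩ : ∃ R' : Finset (Fin p), R' ⊆ Rs ∧ R'.card = 9 :=
    Finset.exists_subset_card_eq hRc
  obtain ⟨C', hC'⟩ : ∃ C' : Finset (Fin q), C' ⊆ Cs ∧ C'.card = 1297 :=
    Finset.exists_subset_card_eq hCc
  set R : Fin 9 → Fin p := fun i => R'.orderEmbOfFin hR'.2 i with hRdef
  set C : Fin 1297 → Fin q := fun j => C'.orderEmbOfFin hC'.2 j with hCdef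
  have hRi : Function.Injective R := (R'.orderEmbOfFin hR'.2).injective
  have hCi : Function.Injective C := (C'.orderEmbOfFin hC'.2).injective
  have hRm : ∀ i, (.β (R i) : Vtx p q) ∉ U := by
    intro i
    have := hR'.1 (R'.orderEmbOfFin_mem hR'.2 i)
    exact (Finset.mem_filter.1 this).2
  have hCm : ∀ j, (.α (C j) : Vtx p q) ∉ U ∧
      ∀ i, (.a i (C j) : Vtx p q) ∉ U ∧ (.b i (C j) : Vtx p q) ∉ U := by
    intro j
    have := hC'.1 (C'.orderEmbOfFin_mem hC'.2 j)
    exact (Finset.mem_filter.1 this).2
  have hmem : ∀ x, sub R C x ∈ {v | v ∉ U} := by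
    intro x
    cases x with
    | a i j => exact ((hCm j).2 (R i)).1
    | b i j => exact ((hCm j).2 (R i)).2
    | α j => exact (hCm j).1
    | β i => exact hRm i
  refine gridGraph_not_bounded (p := 9) (q := 1297) (by norm_num) (by norm_num) ?_
  refine bounded_restrict (fun x => (⟨sub R C x, hmem x⟩ : {v | v ∉ U})) ?_ ?_ hbd
  · intro x y h
    exact sub_inj hRi hCi (Subtype.ext_iff.1 h)
  · intro x y
    rw [sub_adj hRi hCi x y]
    rfl

/-- Every NeST graph has representations whose tolerances exceed the sizes by an arbitrarily small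
factor only. -/
theorem almost_bounded {V : Type} {G : SimpleGraph V} (h : IsNeST G) {K : ℝ} (hK : 1 < K) :
    ∃ (T : Type) (_ : MetricSpace T), IsEmbeddedTree T ∧
      ∃ (c : V → T) (r t : V → ℝ), IsNeSTRep G c r t ∧ ∀ v, t v ≤ K * (2 * r v) := by
  obtain ⟨T, i, hT, c, r, t, hrep⟩ := h
  refine ⟨T, i, hT, c, r, fun v => min (t v) (K * (2 * r v)), ?_, fun v => min_le_right _ _⟩
  have hr := hrep.radius_pos
  refine ⟨hr, fun v => lt_min (hrep.tolerance_pos v) (by have := hr v; positivity), hrep.size, ?_⟩
  intro x y hxy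
  rw [hrep.adj_iff x y hxy]
  refine and_congr_right fun _ => ?_
  set δ := diam (closedBall (c x) (r x) ∩ closedBall (c y) (r y)) with hδ
  have hx : δ ≤ 2 * r x := by
    rw [← hrep.size x]
    exact diam_mono inter_subset_left isBounded_closedBall
  have hy : δ ≤ 2 * r y := by
    rw [← hrep.size y]
    exact diam_mono inter_subset_right isBounded_closedBall
  have hlt : ∀ v, 2 * r v < K * (2 * r v) := by
    intro v
    have := hr v
    nlinarith
  constructor
  · intro h
    rcases min_le_iff.1 h with h1 | h1
    · exact (min_le_left _ _).trans ((min_le_left _ _).trans h1)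
    · exact (min_le_right _ _).trans ((min_le_left _ _).trans h1)
  · intro h
    rcases min_le_iff.1 h with h1 | h1
    · rcases min_le_iff.1 h1 with h2 | h2
      · exact (min_le_left _ _).trans h2
      · have := hlt x
        linarith
    · rcases min_le_iff.1 h1 with h2 | h2
      · exact (min_le_right _ _).trans h2
      · have := hlt y
        linarith

/-- `G` has a NeST representation in which every tolerance is at most `K` times the size of the
subtree. (`K = 1` gives the bounded NeST graphs.) -/
def RepWithin {V : Type} (K : ℝ) (G : SimpleGraph V) : Prop :=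
  ∃ (T : Type) (_ : MetricSpace T), IsEmbeddedTree T ∧
    ∃ (c : V → T) (r t : V → ℝ), IsNeSTRep G c r t ∧ ∀ v, t v ≤ K * (2 * r v)

/-- In every NeST representation of `G` at least `m` vertices have a tolerance larger than the size
of their subtree. -/
def NeedsUnbounded {V : Type} (m : ℕ) (G : SimpleGraph V) : Prop :=
  ∀ (T : Type) (_ : MetricSpace T) (c : V → T) (r t : V → ℝ), IsEmbeddedTree T →
    IsNeSTRep G c r t → m ≤ {v | 2 * r v < t v}.ncard

/-- `G` does not become a bounded NeST graph when at most `m` vertices are deleted. -/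
def FarFromBounded {V : Type} (m : ℕ) (G : SimpleGraph V) : Prop :=
  ∀ U : Finset V, U.card ≤ m → ¬ IsBoundedNeST (G.induce {v | v ∉ U})

/-- **NeST graphs can need arbitrarily many unbounded tolerances.**

(1) For all `p ≥ 9` and `q ≥ p + 1288` the grid graph (a split graph with `2 p q + p + q` vertices)
is a NeST graph and not a bounded NeST graph; it stays unbounded after the deletion of any `p - 9`
vertices, and in every NeST representation at least `p - 8` vertices have a tolerance larger than
the size of their subtree.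

(2) For every `K > 1` every NeST graph has a representation in which every tolerance is at most `K`
times the size of the subtree; so the bound `t v ≤ 2 * r v` cannot be relaxed by any factor. -/
theorem result :
    (∀ p q : ℕ, 9 ≤ p → p + 1288 ≤ q →
      Nat.card (Vtx p q) = 2 * p * q + p + q ∧
      IsNeST (gridGraph p q) ∧ ¬ IsBoundedNeST (gridGraph p q) ∧
      FarFromBounded (p - 9) (gridGraph p q) ∧ NeedsUnbounded (p - 8) (gridGraph p q)) ∧
    ∀ (V : Type) (G : SimpleGraph V), IsNeST G → ∀ K : ℝ, 1 < K → RepWithin K G := by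
  classical
  refine ⟨?_, fun V G h K hK => almost_bounded h hK⟩
  intro p q hp hq
  refine ⟨?_, gridGraph_isNeST (by omega) (by omega), ?_, fun U hU => far hq U (by omega), ?_⟩
  · let e : Vtx p q ≃ (Fin p × Fin q ⊕ Fin p × Fin q) ⊕ (Fin q ⊕ Fin p) :=
      { toFun := fun v => match v with
          | .a i j => Sum.inl (Sum.inl (i, j))
          | .b i j => Sum.inl (Sum.inr (i, j))
          | .α j => Sum.inr (Sum.inl j)
          | .β i => Sum.inr (Sum.inr i)
        invFun := fun s => match s with
          | Sum.inl (Sum.inl (i, j)) => .a i j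
          | Sum.inl (Sum.inr (i, j)) => .b i j
          | Sum.inr (Sum.inl j) => .α j
          | Sum.inr (Sum.inr i) => .β i
        left_inv := fun v => by cases v <;> rfl
        right_inv := fun s => by
          rcases s with (⟨i, j⟩ | ⟨i, j⟩) | (j | i) <;> rfl }
    rw [Nat.card_congr e, Nat.card_eq_fintype_card]
    simp only [Fintype.card_sum, Fintype.card_prod, Fintype.card_fin]
    ring
  · intro h
    refine far hq ∅ (by simpa using hp) ?_
    exact bounded_restrict (fun x => x.1) Subtype.val_injective (fun x y => Iff.rfl) h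
  · intro T _ c r t hT hrep
    by_contra hlt
    push Not at hlt
    set U : Finset (Vtx p q) := (Set.toFinite {v | 2 * r v < t v}).toFinset with hU
    have hUc : U.card = {v | 2 * r v < t v}.ncard :=
      (Set.ncard_eq_toFinset_card _ _).symm
    refine far hq U (by omega) ⟨T, inferInstance, hT, _, _, _,
      rep_restrict hrep (fun x : {v | v ∉ U} => x.1) Subtype.val_injective
        (fun x y => Iff.rfl), ?_⟩
    rintro ⟨v, hv⟩
    have h1 : v ∉ U := hv
    rw [hU, Set.Finite.mem_toFinset, mem_ofPred_eq, not_lt] at h1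
    exact h1

end Pool.Agent.Results.MP_123300_co.ManyUnbounded
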